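import Pool.Agent.H83XI.Lind

/-!
# The Lindelöf hypothesis for `L(s, Δ)` and the non-real zeros of the de Bruijn-Newman flow of `Ξ_Δ`

`H_t(z) = ∫_0^∞ exp(t log² y) Δ(i y) y^(6 + i z) dy / y`, that is `H_t = exp(-t D²) Ξ_Δ`. For small `t > 0` the flow
has few non-real zeros at the heights beyond `exp(c/t)` if and only if `L(s, Δ)` has certain growth exponents to the
right of the critical line (all of them `0`, i.e. the Lindelöf hypothesis, in the case `c = 0`); and all zeros at these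
heights are real and simple if and only if moreover `Ξ_Δ` has a zero-free strip.

The local statements `S_HPX`, `S_JEN`, `S_INVX`, `S_NET` and the lemmas on the heat flow are from the starting files of
the projects HF and GLD; `S_TCZ` (three circles with few zeros), the assembly, and everything about `Δ` are new
(`Pool.Agent.H83XI`); the data for `L(s, Δ)` are from `Pool.Agent.Helper41x.Dl`.
-/

set_option autoImplicit false

namespace Pool.Agent.Results.MP_cd509c_nt.FewNonrealZeros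

/-- The Ramanujan Xi-function: `Ξ z = Λ (6 + i z)`, `Λ` the Mellin transform of
`Δ(i y) = exp(-2 π y) ∏ (1 - exp(-2 π (n + 1) y)) ^ 24`. -/
noncomputable def Xi (z : ℂ) : ℂ :=
  mellin (fun y : ℝ =>
    (((Real.exp (-2 * Real.pi * y)) *
      ∏' n : ℕ, (1 - Real.exp (-2 * Real.pi * ((n : ℝ) + 1) * y)) ^ 24 : ℝ) : ℂ))
    (6 + Complex.I * z)

/-- The de Bruijn-Newman family: `H_t z` is the Mellin transform of `exp(t log² y) Δ(i y)` at `6 + i z`. -/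
noncomputable def H (t : ℝ) (z : ℂ) : ℂ :=
  mellin (fun y : ℝ =>
    ((Real.exp (t * Real.log y ^ 2) * (Real.exp (-2 * Real.pi * y) *
      ∏' n : ℕ, (1 - Real.exp (-2 * Real.pi * ((n : ℝ) + 1) * y)) ^ 24) : ℝ) : ℂ))
    (6 + Complex.I * z)

/-- For all `ε, δ > 0`, all small `t > 0` and all real `y` with `|y| ≥ exp((c + ε)/t)`: the zeros of `H_t` with
`|Re z - y| ≤ 1` and `|Im z| ≥ δ` have total multiplicity at most `ε log |y|`. -/
def Few (c : ℝ) : Prop := ∀ ε : ℝ, 0 < ε → ∀ δ : ℝ, 0 < δ → ∃ t₁ : ℝ, 0 < t₁ ∧ ∀ t : ℝ, 0 < t → t ≤ t₁ →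
  ∀ y : ℝ, Real.exp ((c + ε) / t) ≤ |y| → ∀ S : Finset ℂ,
    (∀ z ∈ S, H t z = 0 ∧ |z.re - y| ≤ 1 ∧ δ ≤ |z.im|) →
    ∑ z ∈ S, (analyticOrderNatAt (H t) z : ℝ) ≤ ε * Real.log |y|

/-- For every `ε > 0` and all small `t > 0`: the zeros of `H_t` with `|Re z| ≥ exp((c + ε)/t)` are real and simple. -/
def Line (c : ℝ) : Prop := ∀ ε : ℝ, 0 < ε → ∃ t₁ : ℝ, 0 < t₁ ∧ ∀ t : ℝ, 0 < t → t ≤ t₁ → ∀ z : ℂ,
  H t z = 0 → Real.exp ((c + ε) / t) ≤ |z.re| → z.im = 0 ∧ deriv (H t) z ≠ 0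

/-- For every `ε > 0` the zeros of `Ξ` with large real part have `|Im z| ≤ ϑ + ε`. -/
def Strip (ϑ : ℝ) : Prop := ∀ ε : ℝ, 0 < ε → ∃ Y : ℝ, ∀ z : ℂ, Xi z = 0 → Y ≤ |z.re| → |z.im| ≤ ϑ + ε

/-- The Lindelöf hypothesis: `L(6 + i y, Δ) ≪ |y|^ε` for every `ε > 0`. -/
def Lindelof : Prop := ∀ ε : ℝ, 0 < ε → ∃ Y : ℝ, ∀ y : ℝ, Y ≤ |y| →
  ‖Xi y‖ ≤ |y| ^ ε * ‖Complex.Gamma (6 + Complex.I * y)‖

/-- `L(6 + r + i y, Δ) ≪ |y|^(max(2c - r, 0)²/(4c) + ε)` for every `ε > 0`, uniformly for `0 ≤ r ≤ 1/2`. -/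
def Growth (c : ℝ) : Prop := ∀ ε : ℝ, 0 < ε → ∃ Y : ℝ, ∀ y r : ℝ, Y ≤ |y| → 0 ≤ r → r ≤ 1 / 2 →
  ‖Xi (y - Complex.I * r)‖ ≤
    |y| ^ (max (2 * c - r) 0 ^ 2 / (4 * c) + ε) * ‖Complex.Gamma (6 + r + Complex.I * y)‖

theorem result :
    (Few 0 ↔ Lindelof) ∧
    (∀ c : ℝ, 0 < c → c ≤ 1 / 2 → (Few c ↔ Growth c)) ∧
    (∀ c : ℝ, 0 < c → (Line c ↔ Few c ∧ Strip (2 * c))) := by
  refine ⟨?_, fun c hc hc1 => Pool.Agent.H83XI.few_iff hc hc1, fun c hc => Pool.Agent.H83XI.line_iff_few hc⟩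
  refine Pool.Agent.H83XI.lind_iff.trans ?_
  unfold Pool.Agent.H83XI.SizeP Lindelof
  simp only [zero_add]
  exact Iff.rfl

end Pool.Agent.Results.MP_cd509c_nt.FewNonrealZeros
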