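import Pool.Agent.H83XI.Fin2

/-!
# The de Bruijn-Newman flow of the Ramanujan Xi-function

`H_t(z) = ∫_0^∞ exp(t log² y) Δ(i y) y^(6 + i z) dy / y`, that is `H_t = exp(-t D²) Ξ_Δ`, `H_0 = Ξ_Δ`. For small
`t > 0` all zeros of `H_t` with `|Re z| ≥ exp((c + ε)/t)` are real and simple, unconditionally for `c = 1/2`; and the
set of the `c` with this property is determined exactly by the zero-free strips of `Ξ_Δ` and the growth exponents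
of `L(s, Δ)` to the right of the critical line.

The heat flow and most of the local (saddle point) lemmas are from the starting files of the projects HF and SC
(`Pool.Agent.W169.HF`); the saddle point lemma `S_SADL` they assume, the simplicity of the zeros, the exact criterion
and everything about `Δ` are new (`Pool.Agent.H83XI`); the data for `L(s, Δ)` are from `Pool.Agent.Helper41x.Dl`.
-/

set_option autoImplicit false

namespace Pool.Agent.Results.MP_cd509c_nt.HeatFlowThreshold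

/-- The Ramanujan Xi-function: `Ξ z = Λ (6 + i z)`, `Λ` the Mellin transform of
`Δ(i y) = exp(-2 π y) ∏ (1 - exp(-2 π (n + 1) y)) ^ 24`. -/
noncomputable def Xi (z : ℂ) : ℂ :=
  mellin (fun y : ℝ =>
    (((Real.exp (-2 * Real.pi * y)) *
      ∏' n : ℕ, (1 - Real.exp (-2 * Real.pi * ((n : ℝ) + 1) * y)) ^ 24 : ℝ) : ℂ))
    (6 + Complex.I * z)

/-- The de Bruijn-Newman family: `H_t z` is the Mellin transform of `exp(t log² y) Δ(i y)` at `6 + i z`. -/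
noncomputable def H (t : ℝ) (z : ℂ) : ℂ :=
  mellin (fun y : ℝ =>
    ((Real.exp (t * Real.log y ^ 2) * (Real.exp (-2 * Real.pi * y) *
      ∏' n : ℕ, (1 - Real.exp (-2 * Real.pi * ((n : ℝ) + 1) * y)) ^ 24) : ℝ) : ℂ))
    (6 + Complex.I * z)

/-- For every `ε > 0` and all small `t > 0`: the zeros of `H_t` with `|Re z| ≥ exp((c + ε)/t)` are real and simple. -/
def Line (c : ℝ) : Prop := ∀ ε : ℝ, 0 < ε → ∃ t₁ : ℝ, 0 < t₁ ∧ ∀ t : ℝ, 0 < t → t ≤ t₁ → ∀ z : ℂ,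
  H t z = 0 → Real.exp ((c + ε) / t) ≤ |z.re| → z.im = 0 ∧ deriv (H t) z ≠ 0

/-- For every `ε > 0` the zeros of `Ξ` with large real part have `|Im z| ≤ ϑ + ε`. -/
def Strip (ϑ : ℝ) : Prop := ∀ ε : ℝ, 0 < ε → ∃ Y : ℝ, ∀ z : ℂ, Xi z = 0 → Y ≤ |z.re| → |z.im| ≤ ϑ + ε

/-- `L(6 + i y, Δ) ≪ |y|^(μ + ε)` for every `ε > 0`. -/
def Size (μ : ℝ) : Prop := ∀ ε : ℝ, 0 < ε → ∃ Y : ℝ, ∀ y : ℝ, Y ≤ |y| →
  ‖Xi y‖ ≤ |y| ^ (μ + ε) * ‖Complex.Gamma (6 + Complex.I * y)‖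

/-- `L(6 + r + i y, Δ) ≪ |y|^((2c - r)²/(4c) + ε)` for every `ε > 0`, uniformly for `0 ≤ r ≤ 2c`. -/
def Growth (c : ℝ) : Prop := ∀ ε : ℝ, 0 < ε → ∃ Y : ℝ, ∀ y r : ℝ, Y ≤ |y| → 0 ≤ r → r ≤ 2 * c →
  ‖Xi (y - Complex.I * r)‖ ≤ |y| ^ ((2 * c - r) ^ 2 / (4 * c) + ε) * ‖Complex.Gamma (6 + r + Complex.I * y)‖

theorem result :
    Line (1 / 2) ∧
    (∀ c : ℝ, 0 < c → (Line c ↔ Strip (2 * c) ∧ Growth c)) ∧
    (Line 0 ↔ Strip 0) ∧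
    (∀ ϑ : ℝ, 0 ≤ ϑ → ϑ ≤ 1 / 2 → Strip ϑ → Line ϑ) ∧
    (∀ μ : ℝ, 0 ≤ μ → μ ≤ 1 / 2 → Size μ → Line (1 / (4 * (1 - μ)))) ∧
    (∀ c : ℝ, 0 ≤ c → Line c → Size c) ∧
    (∀ c : ℝ, 1 / 2 < c → ((∀ z : ℂ, Xi z = 0 → z.im = 0) ↔
      ∃ t₁ : ℝ, 0 < t₁ ∧ ∀ t : ℝ, 0 < t → t ≤ t₁ → ∀ z : ℂ, H t z = 0 → |z.re| < Real.exp (c / t) → z.im = 0)) :=
  ⟨Pool.Agent.H83XI.line_half, fun _ hc => Pool.Agent.H83XI.char_iff hc, Pool.Agent.H83XI.strip_iff.symm,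
    fun _ h0 h1 h => Pool.Agent.H83XI.line_of_strip h0 h1 h,
    fun _ h0 h1 h => Pool.Agent.H83XI.line_of_size h0 h1 h,
    fun _ hc h => Pool.Agent.H83XI.size_of_line hc h,
    fun _ hc => Pool.Agent.H83XI.rh_iff hc⟩

end Pool.Agent.Results.MP_cd509c_nt.HeatFlowThreshold
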