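import Pool.Agent.Helper41x.Dl.Fin

/-!
# The Riemann hypothesis for high derivatives of the Ramanujan Xi-function

Every zero `z` of the `n`-th derivative of `Ξ_Δ` with `n ≥ (1/2 + η) log (|Re z| + 2) + C(η)` is real and
simple. In particular, for every `η > 0` and every sufficiently large `n` all zeros of `Ξ_Δ^(n)` with
`|Re z| ≤ exp ((2 - η) n)` are real and simple.

The saddle point method is the one of the starting files (`Pool.Agent.H353R7`), where the constant `1/2` needs
the pointwise Ramanujan bound of Deligne. Here this bound is not used: it is enough that `L(s, Δ)` and its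
inverse are bounded in every half plane `Re s ≥ 13/2 + ε`, which follows from the convergence of
`∑ τ(n)² n^(-s)` for `Re s > 12`. The latter is the Rankin-Selberg method, formalised in `Pool.Agent.W388`.
-/

set_option autoImplicit false

namespace Pool.Agent.Results.MP_cd509c_nt.HighDerivatives

/-- The Ramanujan Xi-function: `Ξ z = Λ (6 + i z)`, `Λ` the Mellin transform of
`Δ(i y) = exp(-2 π y) ∏ (1 - exp(-2 π (n + 1) y)) ^ 24`. -/
noncomputable def Xi (z : ℂ) : ℂ :=
  mellin (fun y : ℝ =>
    (((Real.exp (-2 * Real.pi * y)) *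
      ∏' n : ℕ, (1 - Real.exp (-2 * Real.pi * ((n : ℝ) + 1) * y)) ^ 24 : ℝ) : ℂ))
    (6 + Complex.I * z)

theorem result (η : ℝ) (hη : 0 < η) : ∃ C : ℝ, ∀ (n : ℕ) (z : ℂ),
    (1 / 2 + η) * Real.log (|z.re| + 2) + C ≤ n → iteratedDeriv n Xi z = 0 →
    z.im = 0 ∧ iteratedDeriv (n + 1) Xi z ≠ 0 :=
  Pool.Agent.Helper41x.Dl.main hη

end Pool.Agent.Results.MP_cd509c_nt.HighDerivatives
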