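import Pool.Agent.Helper41x.GN.Delta

/-!
# The Ramanujan Xi-function is not the image of a function with real zeros under an operator of the
# Laguerre-Polya class with a zero

If `φ` belongs to the Laguerre-Polya class, `φ(D)` maps real entire functions of order less than two with real zeros
only to such functions (Laguerre, Polya, Jensen). So every presentation `Ξ_Δ = φ(D) G` with a real entire function
`G` of order less than two with real zeros only would prove the reality of the zeros of `Ξ_Δ`. Here it is shown that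
there is no such presentation if `φ` has a zero: `G` then has infinitely many non-real zeros. For `φ(s) = s` the
functions `G` are the antiderivatives of `Ξ_Δ`; for `φ(s) = 1 - s/a` the averages of `Ξ_Δ` with respect to an
exponential density are among them. What is left are the functions `φ` of the class without zeros,
`φ(s) = c exp(β s - λ s²)` (translations and the heat flow).
-/

set_option autoImplicit false

open Complex Filter Topology Polynomial
open scoped ComplexConjugate

namespace Pool.Agent.Results.MP_cd509c_nt.NoLaguerrePolyaPreimage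

/-- The Ramanujan Xi-function: `Ξ z = Λ (6 + i z)`, `Λ` the Mellin transform of
`Δ(i y) = exp(-2 π y) ∏ (1 - exp(-2 π (n + 1) y)) ^ 24`. -/
noncomputable def Xi (z : ℂ) : ℂ :=
  mellin (fun y : ℝ =>
    (((Real.exp (-2 * Real.pi * y)) *
      ∏' n : ℕ, (1 - Real.exp (-2 * Real.pi * ((n : ℝ) + 1) * y)) ^ 24 : ℝ) : ℂ))
    (6 + Complex.I * z)

/-- The Laguerre-Polya class: the locally uniform limits, not identically zero, of sequences of real polynomials all
of whose complex zeros are real. -/
def LaguerrePolya (φ : ℂ → ℂ) : Prop :=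
  (∃ z, φ z ≠ 0) ∧ ∃ Q : ℕ → ℝ[X], (∀ (N : ℕ) (w : ℂ), aeval w (Q N) = 0 → w.im = 0) ∧
    TendstoLocallyUniformly (fun (N : ℕ) (w : ℂ) => aeval w (Q N)) φ atTop

/-- If `φ` in the Laguerre-Polya class has a zero and `G` is an entire function of order less than two, real on the
real line, with `φ(D) G = Ξ_Δ`, then `G` has infinitely many non-real zeros. -/
theorem result (φ : ℂ → ℂ) (hφ : LaguerrePolya φ) (hφ0 : ∃ a, φ a = 0)
    (G : ℂ → ℂ) (hG : Differentiable ℂ G) (hreal : ∀ z, G (conj z) = conj (G z))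
    (hgrowth : ∃ C ρ : ℝ, ρ < 2 ∧ ∀ z, ‖G z‖ ≤ Real.exp (C * (1 + ‖z‖) ^ ρ))
    (h : ∀ z, HasSum (fun n : ℕ => iteratedDeriv n φ 0 / (n.factorial : ℂ) * iteratedDeriv n G z) (Xi z)) :
    {z : ℂ | G z = 0 ∧ z.im ≠ 0}.Infinite := by
  obtain ⟨a, ha⟩ := hφ0
  obtain ⟨C, ρ, hρ, hgr⟩ := hgrowth
  refine Pool.Agent.Helper41x.GN.xi_main hφ ha hG hreal ⟨max C 0, max ρ 0, le_max_right _ _, le_max_right _ _,
    max_lt hρ (by norm_num), fun z => (hgr z).trans (Real.exp_le_exp.2 ?_)⟩ h
  have h1 : (1 : ℝ) ≤ 1 + ‖z‖ := by linarith [norm_nonneg z]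
  have h2 : (1 + ‖z‖) ^ ρ ≤ (1 + ‖z‖) ^ max ρ 0 := Real.rpow_le_rpow_of_exponent_le h1 (le_max_left _ _)
  have h3 : 0 ≤ (1 + ‖z‖) ^ ρ := Real.rpow_nonneg (by linarith) _
  calc C * (1 + ‖z‖) ^ ρ ≤ max C 0 * (1 + ‖z‖) ^ ρ := mul_le_mul_of_nonneg_right (le_max_left _ _) h3
    _ ≤ max C 0 * (1 + ‖z‖) ^ max ρ 0 := mul_le_mul_of_nonneg_left h2 (le_max_right _ _)

end Pool.Agent.Results.MP_cd509c_nt.NoLaguerrePolyaPreimage
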